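import Mathlib
import Pool.Agent.H92.SG.Stmts

/-!
# Board sg7, module FIN: the final statement from the bounds
-/

namespace Pool.Agent.H92.SG

theorem FIN_perm (x : ℕ) : perm β77 x =
    Equiv.swap 0 1 (Equiv.swap 1 2 (Equiv.swap 0 1 (Equiv.swap 1 2
      (Equiv.swap 2 3 (Equiv.swap 1 2 (Equiv.swap 2 3 x)))))) := by
  simp only [β77, map_mul, map_inv, perm_σ, Equiv.Perm.mul_apply, Equiv.swap_inv]

theorem FIN_isKnot : IsKnot 4 β77 := by
  refine ⟨by norm_num, ?_, ?_⟩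
  · have h0 : σ 0 ∈ Bn 4 := σ_mem_Bn (by norm_num)
    have h1 : σ 1 ∈ Bn 4 := σ_mem_Bn (by norm_num)
    have h2 : σ 2 ∈ Bn 4 := σ_mem_Bn (by norm_num)
    have k0 := (Bn 4).inv_mem h0
    have k2 := (Bn 4).inv_mem h2
    exact (Bn 4).mul_mem ((Bn 4).mul_mem ((Bn 4).mul_mem ((Bn 4).mul_mem ((Bn 4).mul_mem
      ((Bn 4).mul_mem k0 h1) k0) h1) k2) h1) k2
  · intro S h0 hS
    have e0 : perm β77 0 = 2 := by rw [FIN_perm]; decide
    have e2 : perm β77 2 = 1 := by rw [FIN_perm]; decide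
    have e1 : perm β77 1 = 3 := by rw [FIN_perm]; decide
    have h2 : 2 ∈ S := e0 ▸ hS 0 h0
    have h1 : 1 ∈ S := e2 ▸ hS 2 h2
    have h3 : 3 ∈ S := e1 ▸ hS 1 h1
    intro i hi
    interval_cases i
    · exact h0
    · exact h1
    · exact h2
    · exact h3

theorem FIN_thm (hLOW : LowerStmt) (hUP : UpperStmt) (hSUB : SubStmt) : FinalStmt := by
  refine ⟨FIN_isKnot, ?_⟩
  set u : ℕ → ℝ := fun n => (g4 (3 * n + 1) (nfold 4 β77 n) : ℝ) with hu
  have hsub : Subadditive u := by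
    intro m n
    have := hSUB.2 m n
    simp only [hu]
    exact_mod_cast this
  have hbdd : BddBelow (Set.range fun n => u n / n) :=
    ⟨0, by rintro _ ⟨n, rfl⟩; exact div_nonneg (Nat.cast_nonneg _) (Nat.cast_nonneg _)⟩
  have hmem : ∀ n, Surf (3 * n + 1) (nfold 4 β77 n) (2 * g4 (3 * n + 1) (nfold 4 β77 n)) := by
    intro n
    exact Nat.sInf_mem (s := {g | Surf (3 * n + 1) (nfold 4 β77 n) (2 * g)})
      ⟨2 * n, hSUB.1 n⟩
  have hlow : ∀ n : ℕ, 1 ≤ n → (1 / 10 : ℝ) ≤ u n / n := by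
    intro n hn
    have h := hLOW n _ (hmem n)
    have hn0 : (0 : ℝ) < n := by exact_mod_cast hn
    rw [le_div_iff₀ hn0]
    have h' : (n : ℝ) ≤ 10 * u n := by
      simp only [hu]
      exact_mod_cast h
    linarith
  have hup : u 3 ≤ 1 := by
    have h : g4 (3 * 3 + 1) (nfold 4 β77 3) ≤ 1 :=
      Nat.sInf_le (s := {g | Surf (3 * 3 + 1) (nfold 4 β77 3) (2 * g)}) hUP
    simp only [hu]
    exact_mod_cast h
  have hlim := hsub.tendsto_lim hbdd
  refine ⟨hsub.lim, ?_, ?_, ?_⟩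
  · have e : (fun n : ℕ => (g4 (n * (4 - 1) + 1) (nfold 4 β77 n) : ℝ) / n) =
        fun n => u n / n := by
      funext n
      have : n * (4 - 1) + 1 = 3 * n + 1 := by omega
      rw [this]
    rw [e]
    exact hlim
  · exact ge_of_tendsto hlim (Filter.eventually_atTop.2 ⟨1, hlow⟩)
  · have h3 := hsub.lim_le_div hbdd (n := 3) (by norm_num)
    refine h3.trans ?_
    have : ((3 : ℕ) : ℝ) = 3 := by norm_num
    rw [this]
    linarith

end Pool.Agent.H92.SG
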